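import Pool.Agent.Lib.MP_fa837f_gt.P2.Iface

/-!
Project P2, row SL: facts on `L`, `r`, `κ`.
-/

set_option autoImplicit false

open MeasureTheory Matrix Set Filter Topology

namespace Pool.Agent.Lib.MP_fa837f_gt.P2.H17

variable {n k : ℕ}

/-- the linear form `y ↦ (y_i)_c` -/
noncomputable def YL (m : Fin n → Fin k → ℝ) (i : Fin n) (c : Fin 3) : Pt k →L[ℝ] ℝ :=
  ∑ a, m i a • (ContinuousLinearMap.proj (a, c) : Pt k →L[ℝ] ℝ)

theorem YL_apply (m : Fin n → Fin k → ℝ) (i : Fin n) (c : Fin 3) (y : Pt k) :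
    YL m i c y = Yv m y i c := by
  unfold YL Yv
  rw [_root_.sum_apply]
  rfl

theorem hasFDerivAt_Yv (m : Fin n → Fin k → ℝ) (i : Fin n) (c : Fin 3) (y : Pt k) :
    HasFDerivAt (fun z => Yv m z i c) (YL m i c) y := by
  have h : (fun z => Yv m z i c) = fun z => YL m i c z := by
    funext z; rw [YL_apply]
  rw [h]
  exact (YL m i c).hasFDerivAt

theorem contDiff_Yv (m : Fin n → Fin k → ℝ) (i : Fin n) (c : Fin 3) :
    ContDiff ℝ (⊤ : ℕ∞) fun z => Yv m z i c := by
  have h : (fun z => Yv m z i c) = fun z => YL m i c z := by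
    funext z; rw [YL_apply]
  rw [h]
  exact (YL m i c).contDiff

theorem Gm_self_nonneg (m : Fin n → Fin k → ℝ) (y : Pt k) (i : Fin n) : 0 ≤ Gm m y i i := by
  unfold Gm
  exact Finset.sum_nonneg fun c _ => mul_self_nonneg _

theorem L_pos (S : Sys n k) (y : Pt k) (i : Fin n) : 0 < S.L y i := by
  unfold Sys.L
  have h1 := Gm_self_nonneg S.m y i
  have h2 := S.he i
  linarith

theorem e_le_L (S : Sys n k) (y : Pt k) (i : Fin n) : S.e i ≤ S.L y i := by
  unfold Sys.L
  have h1 := Gm_self_nonneg S.m y i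
  linarith

theorem hasFDerivAt_L (S : Sys n k) (i : Fin n) (y : Pt k) :
    HasFDerivAt (fun z => S.L z i) (∑ c, (2 * Yv S.m y i c) • YL S.m i c) y := by
  unfold Sys.L Gm
  refine HasFDerivAt.add_const _ ?_
  refine (HasFDerivAt.fun_sum fun c _ =>
    (hasFDerivAt_Yv S.m i c y).mul (hasFDerivAt_Yv S.m i c y)).congr_fderiv ?_
  refine Finset.sum_congr rfl fun c _ => ?_
  rw [← add_smul]
  congr 1
  ring

theorem sum_YL_apply (S : Sys n k) (i : Fin n) (y v : Pt k) :
    (∑ c, (2 * Yv S.m y i c) • YL S.m i c : Pt k →L[ℝ] ℝ) v =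
      2 * ∑ c, Yv S.m y i c * Yv S.m v i c := by
  rw [_root_.sum_apply, Finset.mul_sum]
  refine Finset.sum_congr rfl fun c _ => ?_
  rw [_root_.smul_apply, YL_apply, smul_eq_mul]
  ring

theorem contDiff_L (S : Sys n k) (i : Fin n) : ContDiff ℝ (⊤ : ℕ∞) fun y => S.L y i := by
  unfold Sys.L Gm
  exact (ContDiff.sum fun c _ => (contDiff_Yv S.m i c).mul (contDiff_Yv S.m i c)).add
    contDiff_const

theorem hasFDerivAt_r (S : Sys n k) (i : Fin n) (y : Pt k) :
    HasFDerivAt (fun z => S.r z i)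
      ((S.c i * (S.δ * S.L y i ^ (S.δ - 1))) • (∑ c, (2 * Yv S.m y i c) • YL S.m i c)) y := by
  unfold Sys.r
  have h1 := (hasFDerivAt_L S i y).rpow_const (p := S.δ) (Or.inl (L_pos S y i).ne')
  refine (h1.const_mul (S.c i)).congr_fderiv ?_
  rw [smul_smul]

theorem dl_eq (S : Sys n k) (i : Fin n) (y v : Pt k) :
    (S.c i * (S.δ * S.L y i ^ (S.δ - 1))) * (2 * ∑ c, Yv S.m y i c * Yv S.m v i c) =
      S.r y i * S.dl y v i := by
  have hL := L_pos S y i
  unfold Sys.r Sys.dl
  rw [Real.rpow_sub_one hL.ne']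
  field_simp

theorem coercive (S : Sys n k) (w : Fin n → ℝ) (hw : ∀ i, 0 < w i) :
    ∃ a : ℝ, 0 < a ∧ ∀ y : Pt k, a * ‖y‖ ^ 2 ≤ ∑ i, w i * Gm S.m y i i := by
  let T : Pt k →ₗ[ℝ] (Fin n × Fin 3 → ℝ) :=
    { toFun := fun y p => Real.sqrt (w p.1) * YL S.m p.1 p.2 y
      map_add' := fun x y => by
        funext p
        simp only [map_add, Pi.add_apply]
        ring
      map_smul' := fun c x => by
        funext p
        simp only [map_smul, Pi.smul_apply, smul_eq_mul, RingHom.id_apply]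
        ring }
  have hT : LinearMap.ker T = ⊥ := by
    rw [LinearMap.ker_eq_bot']
    intro y hy
    funext q
    obtain ⟨a, c⟩ := q
    have h1 : ∀ i, S.m i ⬝ᵥ (fun a => y (a, c)) = 0 := by
      intro i
      have h2 : T y (i, c) = 0 := by rw [hy]; rfl
      have h3 : Real.sqrt (w i) * YL S.m i c y = 0 := h2
      rcases mul_eq_zero.mp h3 with h4 | h4
      · exact absurd h4 (Real.sqrt_pos.mpr (hw i)).ne'
      · rw [YL_apply] at h4
        exact h4
    have h5 := S.hm _ h1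
    exact congrFun h5 a
  obtain ⟨K, hK, hK2⟩ := LinearMap.exists_antilipschitzWith T hT
  have hK0 : (0 : ℝ) < K := hK
  refine ⟨1 / (K : ℝ) ^ 2, by positivity, fun y => ?_⟩
  have h1 : ‖y‖ ≤ K * ‖T y‖ := by
    have h2 := hK2.le_mul_dist y 0
    rw [dist_zero_right, map_zero, dist_zero_right] at h2
    exact h2
  have h3 : ‖T y‖ ^ 2 ≤ ∑ i, w i * Gm S.m y i i := by
    have h4 : ∑ i, w i * Gm S.m y i i = ∑ p : Fin n × Fin 3, (T y p) ^ 2 := by
      rw [Fintype.sum_prod_type]
      refine Finset.sum_congr rfl fun i _ => ?_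
      unfold Gm
      rw [Finset.mul_sum]
      refine Finset.sum_congr rfl fun c _ => ?_
      have h5 : T y (i, c) = Real.sqrt (w i) * Yv S.m y i c := by
        rw [← YL_apply]; rfl
      rw [h5, mul_pow, Real.sq_sqrt (hw i).le]
      ring
    rw [h4]
    have h6 : 0 ≤ ∑ p : Fin n × Fin 3, (T y p) ^ 2 := Finset.sum_nonneg fun p _ => sq_nonneg _
    have h7 : ‖T y‖ ≤ Real.sqrt (∑ p : Fin n × Fin 3, (T y p) ^ 2) := by
      rw [pi_norm_le_iff_of_nonneg (Real.sqrt_nonneg _)]
      intro p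
      apply Real.le_sqrt_of_sq_le
      rw [Real.norm_eq_abs, sq_abs]
      exact Finset.single_le_sum (f := fun p => (T y p) ^ 2) (fun p _ => sq_nonneg _)
        (Finset.mem_univ p)
    calc ‖T y‖ ^ 2 ≤ (Real.sqrt (∑ p : Fin n × Fin 3, (T y p) ^ 2)) ^ 2 :=
          pow_le_pow_left₀ (norm_nonneg _) h7 2
      _ = _ := Real.sq_sqrt h6
  have h8 : ‖y‖ ^ 2 ≤ (K : ℝ) ^ 2 * ‖T y‖ ^ 2 := by
    rw [← mul_pow]
    exact pow_le_pow_left₀ (norm_nonneg _) h1 2
  have h9 : 1 / (K : ℝ) ^ 2 * ‖y‖ ^ 2 ≤ ‖T y‖ ^ 2 := by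
    rw [one_div, inv_mul_le_iff₀ (by positivity)]
    exact h8
  exact h9.trans h3

theorem sl_st : SlStatement := by
  intro n k S
  have hδ := S.hδ0
  have hd1 : 0 < 1 + S.δ := by linarith
  have hkap : ∀ y, 0 ≤ S.kap y := by
    intro y
    unfold Sys.kap
    refine Finset.sum_nonneg fun i _ => ?_
    have h1 := S.hc i
    have h2 := L_pos S y i
    positivity
  have hrpos : ∀ y i, 0 < S.r y i := by
    intro y i
    unfold Sys.r
    exact mul_pos (S.hc i) (Real.rpow_pos_of_pos (L_pos S y i) _)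
  have hterm : ∀ y i, S.c i / (1 + S.δ) * S.L y i ^ (1 + S.δ) =
      S.r y i * S.L y i / (1 + S.δ) := by
    intro y i
    unfold Sys.r
    rw [Real.rpow_add (L_pos S y i), Real.rpow_one]
    field_simp
  have hrlow : ∀ y i, S.c i * S.e i ^ S.δ ≤ S.r y i := by
    intro y i
    unfold Sys.r
    exact mul_le_mul_of_nonneg_left
      (Real.rpow_le_rpow (S.he i).le (e_le_L S y i) hδ.le) (S.hc i).le
  have hdkapF : ∀ y, HasFDerivAt S.kap
      (∑ i, (S.c i / (1 + S.δ) * ((1 + S.δ) * S.L y i ^ (1 + S.δ - 1))) •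
        (∑ c, (2 * Yv S.m y i c) • YL S.m i c)) y := by
    intro y
    unfold Sys.kap
    refine (HasFDerivAt.fun_sum fun i _ =>
      ((hasFDerivAt_L S i y).rpow_const (p := 1 + S.δ)
        (Or.inl (L_pos S y i).ne')).const_mul (S.c i / (1 + S.δ))).congr_fderiv ?_
    refine Finset.sum_congr rfl fun i _ => ?_
    rw [smul_smul]
  refine
    { Lpos := L_pos S
      eL := e_le_L S
      rpos := hrpos
      rlow := hrlow
      kap0 := hkap
      rkap := ?_
      coer := ?_
      sY := fun i c => contDiff_Yv S.m i c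
      sL := fun i => contDiff_L S i
      sr := ?_
      skap := ?_
      dY := fun i c y v => by rw [(hasFDerivAt_Yv S.m i c y).fderiv, YL_apply]
      dL := fun i y v => by rw [(hasFDerivAt_L S i y).fderiv, sum_YL_apply]
      dr := ?_
      dkap := ?_ }
  · intro y
    unfold Sys.kap
    rw [Finset.mul_sum]
    refine Finset.sum_le_sum fun i _ => ?_
    rw [hterm, mul_div_cancel₀ _ hd1.ne']
    refine mul_le_mul_of_nonneg_left ?_ (hrpos y i).le
    unfold Sys.L
    have := S.he i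
    linarith
  · obtain ⟨a, ha, h⟩ := coercive S (fun i => S.c i * S.e i ^ S.δ / (1 + S.δ)) (fun i => by
      have h1 := S.hc i
      have h2 := S.he i
      positivity)
    refine ⟨a, ha, fun y => (h y).trans ?_⟩
    unfold Sys.kap
    refine Finset.sum_le_sum fun i _ => ?_
    rw [hterm]
    have h1 : S.c i * S.e i ^ S.δ / (1 + S.δ) * Gm S.m y i i =
        (S.c i * S.e i ^ S.δ) * Gm S.m y i i / (1 + S.δ) := by ring
    rw [h1]
    refine div_le_div_of_nonneg_right ?_ hd1.le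
    have h2 : Gm S.m y i i ≤ S.L y i := by
      unfold Sys.L
      have := S.he i
      linarith
    exact mul_le_mul (hrlow y i) h2 (Gm_self_nonneg _ _ _) (hrpos y i).le
  · intro i
    unfold Sys.r
    exact contDiff_const.mul ((contDiff_L S i).rpow_const_of_ne fun y => (L_pos S y i).ne')
  · unfold Sys.kap
    exact ContDiff.sum fun i _ => contDiff_const.mul
      ((contDiff_L S i).rpow_const_of_ne fun y => (L_pos S y i).ne')
  · intro i y v
    rw [(hasFDerivAt_r S i y).fderiv, _root_.smul_apply, sum_YL_apply, smul_eq_mul,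
      dl_eq]
  · intro y v
    rw [(hdkapF y).fderiv, _root_.sum_apply, Finset.mul_sum]
    refine Finset.sum_congr rfl fun i _ => ?_
    rw [_root_.smul_apply, sum_YL_apply, smul_eq_mul]
    have h1 : (1 + S.δ - 1) = S.δ := by ring
    rw [h1]
    unfold Sys.r
    field_simp

end Pool.Agent.Lib.MP_fa837f_gt.P2.H17
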