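import Pool.Agent.Lib.MP_fa837f_gt.P2.Iface

/-!
Project P2, row SR: facts on the functions of the weights.
-/

set_option autoImplicit false

open MeasureTheory Matrix Set Filter Topology

namespace Pool.Agent.Lib.MP_fa837f_gt.P2.H17

section

variable {n k : ℕ} (S : Sys n k)

/-- the derivative of the weights -/
noncomputable def Rp (y : Pt k) : Pt k →L[ℝ] (Fin n → ℝ) :=
  ContinuousLinearMap.pi fun l => fderiv ℝ (fun z => S.r z l) y

variable {S}

theorem hasFDerivAt_rr (hl : LFacts S) (y : Pt k) :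
    HasFDerivAt (fun z => S.r z) (Rp S y) y := by
  rw [hasFDerivAt_pi']
  intro l
  have h1 : (ContinuousLinearMap.proj l).comp (Rp S y) = fderiv ℝ (fun z => S.r z l) y := by
    ext v
    rfl
  rw [h1]
  exact (((hl.sr l).differentiable (by simp)) y).hasFDerivAt

theorem contDiff_rr (hl : LFacts S) : ContDiff ℝ (⊤ : ℕ∞) fun z => S.r z :=
  contDiff_pi.mpr fun l => hl.sr l

theorem Rp_apply (hl : LFacts S) (y v : Pt k) (l : Fin n) :
    Rp S y v l = S.r y l * S.dl y v l := by
  rw [← hl.dr]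
  rfl

theorem comp_hasFDerivAt (hl : LFacts S) {F : (Fin n → ℝ) → ℝ} {c : Fin n → ℝ} {y : Pt k}
    (h : HasFDerivAt F (∑ l, c l • prj l) (S.r y)) :
    HasFDerivAt (fun z => F (S.r z)) ((∑ l, c l • prj l).comp (Rp S y)) y :=
  HasFDerivAt.comp y h (hasFDerivAt_rr hl y)

theorem comp_apply (hl : LFacts S) (c : Fin n → ℝ) (y v : Pt k) :
    ((∑ l, c l • prj l).comp (Rp S y)) v = ∑ l, c l * (S.r y l * S.dl y v l) := by
  rw [ContinuousLinearMap.comp_apply, _root_.sum_apply]
  refine Finset.sum_congr rfl fun l _ => ?_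
  rw [_root_.smul_apply, smul_eq_mul, ← Rp_apply hl]
  rfl

theorem comp_fderiv (hl : LFacts S) {F : (Fin n → ℝ) → ℝ} {c : Fin n → ℝ} {y : Pt k}
    (h : HasFDerivAt F (∑ l, c l • prj l) (S.r y)) (v : Pt k) :
    fderiv ℝ (fun z => F (S.r z)) y v = ∑ l, c l * (S.r y l * S.dl y v l) := by
  rw [(comp_hasFDerivAt hl h).fderiv, comp_apply hl]

theorem Yfr' (y : Pt k) (i : Fin n) (c : Fin 3) (l : Fin n) (d : Fin 3) :
    Yv S.m (S.fr y i c) l d = if d = c then be S.m (S.r y) l i else 0 := by
  unfold Yv Sys.fr be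
  by_cases h : d = c
  · subst h
    simp only [if_true]
    rfl
  · simp only [if_neg h, mul_zero, Finset.sum_const_zero]

end

theorem sr_st (hWa : WaStatement) (hWd : WdStatement) (hWe : WeStatement) (hSl : SlStatement) :
    SrStatement := by
  intro n k S τ
  have hl : LFacts S := hSl n k S
  obtain ⟨wdet, winv, wder⟩ := hWd n k S.m S.hm
  have hrpos := hl.rpos
  have hB : ∀ y, BFacts S.m (S.r y) := fun y => hWa n k S.m (S.r y) S.hm (hrpos y)
  have hdetpos : ∀ y, 0 < (RR S.m (S.r y)).det := fun y => (hB y).posdef.det_pos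
  have sdet : ContDiff ℝ (⊤ : ℕ∞) fun y => (RR S.m (S.r y)).det :=
    wdet.comp (contDiff_rr hl)
  have sinv : ∀ a b, ContDiff ℝ (⊤ : ℕ∞) fun y => (RR S.m (S.r y))⁻¹ a b := by
    intro a b
    exact ContDiffOn.comp_contDiff (winv a b) (contDiff_rr hl) (fun y => hrpos y)
  have sbb : ∀ i a, ContDiff ℝ (⊤ : ℕ∞) fun y => bb S.m (S.r y) i a := by
    intro i a
    unfold bb
    simp only [Matrix.mulVec, dotProduct]
    exact ContDiff.sum fun b _ => (sinv a b).mul contDiff_const
  have sbe : ∀ i j, ContDiff ℝ (⊤ : ℕ∞) fun y => be S.m (S.r y) i j := by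
    intro i j
    unfold be
    simp only [dotProduct]
    exact ContDiff.sum fun a _ => contDiff_const.mul (sbb j a)
  have sal : ∀ i j, ContDiff ℝ (⊤ : ℕ∞) fun y => al S.m τ (S.r y) i j := by
    intro i j
    unfold al
    exact (contDiff_const.mul (sbe i j)).sub (ContDiff.sum fun l _ =>
      ((sbe i l).mul (contDiff_const.mul (hl.sr l))).mul (sbe l j))
  have saa : ContDiff ℝ (⊤ : ℕ∞) fun y => aa S.m τ (S.r y) := by
    unfold aa
    exact ContDiff.sum fun i _ => (contDiff_const.mul (hl.sr i)).mul (sbe i i)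
  have snn : ∀ i, ContDiff ℝ (⊤ : ℕ∞) fun y => nn S.m τ (S.r y) i := by
    intro i
    unfold nn
    exact ContDiff.sum fun j _ => ((hl.sr i).mul (hl.sr j)).mul
      (((sal i j).pow 2).add ((sal j i).pow 2))
  have srho : ContDiff ℝ (⊤ : ℕ∞) S.rho := by
    unfold Sys.rho
    exact sdet.mul (Real.contDiff_exp.comp hl.skap.neg)
  refine
    { rhopos := fun y => mul_pos (hdetpos y) (Real.exp_pos _)
      srho := srho
      sdet := sdet
      sinv := sinv
      sbb := sbb
      sbe := sbe
      sal := sal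
      saa := saa
      snn := snn
      drho := ?_
      dinv := ?_
      dbb := ?_
      dbe := ?_
      dal := ?_
      daa := ?_
      dnn := ?_
      Yfr := Yfr'
      dlfr := ?_ }
  · intro y v
    have h1 := comp_hasFDerivAt hl (wder (S.r y) (hrpos y)).1
    have h2 : HasFDerivAt S.kap (fderiv ℝ S.kap y) y :=
      ((hl.skap.differentiable (by simp)) y).hasFDerivAt
    have h3 := h1.mul (h2.neg.exp)
    have h4 : fderiv ℝ S.rho y = _ := h3.fderiv
    rw [h4]
    simp only [_root_.add_apply, _root_.smul_apply, _root_.neg_apply, smul_eq_mul, Pi.neg_apply]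
    rw [comp_apply hl, hl.dkap]
    have h5 : ∑ l, (RR S.m (S.r y)).det * be S.m (S.r y) l l * (S.r y l * S.dl y v l) =
        (RR S.m (S.r y)).det * ∑ l, S.r y l * be S.m (S.r y) l l * S.dl y v l := by
      rw [Finset.mul_sum]
      refine Finset.sum_congr rfl fun l _ => ?_
      ring
    rw [h5]
    unfold Sys.rho
    ring
  · intro a b y v
    rw [comp_fderiv hl ((wder (S.r y) (hrpos y)).2.1 a b) v, ← Finset.sum_neg_distrib]
    refine Finset.sum_congr rfl fun l _ => ?_
    ring
  · intro i a y v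
    rw [comp_fderiv hl ((wder (S.r y) (hrpos y)).2.2.1 i a) v, ← Finset.sum_neg_distrib]
    refine Finset.sum_congr rfl fun l _ => ?_
    ring
  · intro i j y v
    rw [comp_fderiv hl ((wder (S.r y) (hrpos y)).2.2.2 i j) v, ← Finset.sum_neg_distrib]
    refine Finset.sum_congr rfl fun l _ => ?_
    ring
  · intro i j y v
    rw [comp_fderiv hl ((hWe n k S.m τ S.hm (S.r y) (hrpos y)).1 i j) v,
      ← Finset.sum_neg_distrib]
    refine Finset.sum_congr rfl fun l _ => ?_
    ring
  · intro y v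
    rw [comp_fderiv hl (hWe n k S.m τ S.hm (S.r y) (hrpos y)).2.1 v]
    refine Finset.sum_congr rfl fun l _ => ?_
    ring
  · intro i y v
    rw [comp_fderiv hl ((hWe n k S.m τ S.hm (S.r y) (hrpos y)).2.2 i) v]
    refine Finset.sum_congr rfl fun l _ => ?_
    have h1 := (hrpos y l).ne'
    field_simp
  · intro y i c l
    unfold Sys.dl
    congr 1
    rw [Finset.sum_eq_single c]
    · rw [Yfr', if_pos rfl]
      ring
    · intro d _ hd
      rw [Yfr', if_neg hd, mul_zero]
    · intro h
      exact absurd (Finset.mem_univ c) h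

end Pool.Agent.Lib.MP_fa837f_gt.P2.H17
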