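import Pool.Agent.Lib.MP_fa837f_gt.P2.Iface

/-!
Project P2, row TS: the functions of a system are tame or polynomially bounded.
-/

set_option autoImplicit false

open MeasureTheory Matrix Set Filter Topology

namespace Pool.Agent.Lib.MP_fa837f_gt.P2.H17

section

variable {n k : ℕ}

theorem pb_mono {f g : Pt k → ℝ} (hg : PB g) (h : ∀ y, |f y| ≤ |g y|) : PB f := by
  obtain ⟨C, N, hC⟩ := hg
  exact ⟨C, N, fun y => (h y).trans (hC y)⟩

theorem pb_const (a : ℝ) : PB fun _ : Pt k => a :=
  ⟨|a|, 0, fun y => by simp⟩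

theorem pb_add (hTm : TmStatement) {f g : Pt k → ℝ} (hf : PB f) (hg : PB g) :
    PB fun y => f y + g y :=
  ((hTm k).2.2.2.2.1 f g hf hg).1

theorem pb_mul (hTm : TmStatement) {f g : Pt k → ℝ} (hf : PB f) (hg : PB g) :
    PB fun y => f y * g y :=
  ((hTm k).2.2.2.2.1 f g hf hg).2

theorem pb_neg {f : Pt k → ℝ} (hf : PB f) : PB fun y => -f y :=
  pb_mono hf fun y => by rw [abs_neg]

theorem pb_sum (hTm : TmStatement) {ι : Type} (s : Finset ι) {f : ι → Pt k → ℝ}
    (hf : ∀ i, PB (f i)) : PB fun y => ∑ i ∈ s, f i y := by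
  classical
  induction s using Finset.induction_on with
  | empty => simpa using pb_const (k := k) 0
  | insert a s ha ih =>
    have h1 : (fun y => ∑ i ∈ insert a s, f i y) = fun y => f a y + ∑ i ∈ s, f i y := by
      funext y
      rw [Finset.sum_insert ha]
    rw [h1]
    exact pb_add hTm (hf a) ih

theorem pb_prod (hTm : TmStatement) {ι : Type} (s : Finset ι) {f : ι → Pt k → ℝ}
    (hf : ∀ i, PB (f i)) : PB fun y => ∏ i ∈ s, f i y := by
  classical
  induction s using Finset.induction_on with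
  | empty => simpa using pb_const (k := k) 1
  | insert a s ha ih =>
    have h1 : (fun y => ∏ i ∈ insert a s, f i y) = fun y => f a y * ∏ i ∈ s, f i y := by
      funext y
      rw [Finset.prod_insert ha]
    rw [h1]
    exact pb_mul hTm (hf a) ih

theorem one_le_top' : (1 : WithTop ℕ∞) ≤ (((⊤ : ℕ∞)) : WithTop ℕ∞) := by
  exact_mod_cast (le_top : (1 : ℕ∞) ≤ ⊤)

theorem pb_Yv (m : Fin n → Fin k → ℝ) (i : Fin n) (c : Fin 3) : PB fun y => Yv m y i c := by
  refine ⟨∑ a, |m i a|, 1, fun y => ?_⟩
  unfold Yv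
  calc |∑ a, m i a * y (a, c)| ≤ ∑ a, |m i a * y (a, c)| := Finset.abs_sum_le_sum_abs _ _
    _ ≤ ∑ a, |m i a| * (1 + ‖y‖) := by
        refine Finset.sum_le_sum fun a _ => ?_
        rw [abs_mul]
        refine mul_le_mul_of_nonneg_left ?_ (abs_nonneg _)
        have h1 : |y (a, c)| ≤ ‖y‖ := norm_le_pi_norm y (a, c)
        linarith
    _ = (∑ a, |m i a|) * (1 + ‖y‖) ^ 1 := by rw [Finset.sum_mul, pow_one]

end

theorem ts_st (hWa : WaStatement) (hSl : SlStatement) (hSr : SrStatement) (hTm : TmStatement) :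
    TsStatement := by
  intro n k S τ
  have hl : LFacts S := hSl n k S
  have hR : RFacts S τ := hSr n k S τ
  have hδ := S.hδ0
  have hB : ∀ y, BFacts S.m (S.r y) := fun y => hWa n k S.m (S.r y) S.hm (hl.rpos y)
  obtain ⟨tadd, tmul, tconst, tcpt, tpb, tsum⟩ := hTm k
  have tY : ∀ i c, Tame fun y => Yv S.m y i c := by
    intro i c
    refine ⟨(hl.sY i c).of_le one_le_top', pb_Yv S.m i c, fun p => ?_⟩
    have h1 : (fun y => fderiv ℝ (fun y => Yv S.m y i c) y (Pi.single p 1)) =
        fun _ => Yv S.m (Pi.single p 1) i c := by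
      funext y
      exact hl.dY i c y _
    rw [h1]
    exact pb_const _
  have tL : ∀ i, Tame fun y => S.L y i := by
    intro i
    unfold Sys.L Gm
    exact tadd _ _ (tsum (Fin 3) _ fun c => tmul _ _ (tY i c) (tY i c)) (tconst _)
  have pY : ∀ i c, PB fun y => Yv S.m y i c := fun i c => pb_Yv S.m i c
  have pLi : ∀ i, PB fun y => (S.L y i)⁻¹ := by
    intro i
    refine pb_mono (pb_const (k := k) (S.e i)⁻¹) fun y => ?_
    rw [abs_of_pos (inv_pos.mpr (hl.Lpos y i)), abs_of_pos (inv_pos.mpr (S.he i))]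
    exact inv_anti₀ (S.he i) (hl.eL y i)
  have pdL : ∀ i (v : Pt k), PB fun y => 2 * ∑ c, Yv S.m y i c * Yv S.m v i c := by
    intro i v
    exact pb_mul hTm (pb_const _) (pb_sum hTm _ fun c => pb_mul hTm (pY i c) (pb_const _))
  have tLi : ∀ i, Tame fun y => (S.L y i)⁻¹ := by
    intro i
    refine ⟨((hl.sL i).of_le one_le_top').inv fun y => (hl.Lpos y i).ne', pLi i, fun p => ?_⟩
    have h1 : (fun y => fderiv ℝ (fun y => (S.L y i)⁻¹) y (Pi.single p 1)) =
        fun y => -(((S.L y i)⁻¹ * (S.L y i)⁻¹) *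
          (2 * ∑ c, Yv S.m y i c * Yv S.m (Pi.single p 1) i c)) := by
      funext y
      have h2 : HasFDerivAt (fun z => S.L z i) (fderiv ℝ (fun z => S.L z i) y) y :=
        (((hl.sL i).differentiable (by simp)) y).hasFDerivAt
      have h3 := (hasDerivAt_inv (hl.Lpos y i).ne').comp_hasFDerivAt y h2
      have h4 : fderiv ℝ (fun y => (S.L y i)⁻¹) y = _ := h3.fderiv
      rw [h4, _root_.smul_apply, hl.dL, smul_eq_mul, sq, mul_inv]
      ring
    rw [h1]
    exact pb_neg (pb_mul hTm (pb_mul hTm (pLi i) (pLi i)) (pdL i _))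
  have pr : ∀ i, PB fun y => S.r y i := by
    intro i
    refine pb_mono (pb_mul hTm (pb_const (S.c i)) (pb_add hTm (pb_const 1) (tL i).bd))
      fun y => ?_
    have hL := hl.Lpos y i
    have hc := S.hc i
    rw [abs_of_pos (hl.rpos y i), abs_of_pos (by positivity)]
    unfold Sys.r
    refine mul_le_mul_of_nonneg_left ?_ hc.le
    rcases le_total (S.L y i) 1 with h | h
    · have h1 := Real.rpow_le_one hL.le h hδ.le
      linarith
    · have h1 : S.L y i ^ S.δ ≤ S.L y i ^ (1 : ℝ) :=
        Real.rpow_le_rpow_of_exponent_le h (by have := S.hδ1; linarith)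
      rw [Real.rpow_one] at h1
      linarith
  have pdl : ∀ (v : Pt k) l, PB fun y => S.dl y v l := by
    intro v l
    unfold Sys.dl
    have h1 : (fun y => 2 * S.δ / S.L y l * ∑ c, Yv S.m y l c * Yv S.m v l c) =
        fun y => (2 * S.δ) * (S.L y l)⁻¹ * ∑ c, Yv S.m y l c * Yv S.m v l c := by
      funext y
      rw [div_eq_mul_inv]
    rw [h1]
    exact pb_mul hTm (pb_mul hTm (pb_const _) (pLi l))
      (pb_sum hTm _ fun c => pb_mul hTm (pY l c) (pb_const _))
  have tr : ∀ i, Tame fun y => S.r y i := by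
    intro i
    refine ⟨(hl.sr i).of_le one_le_top', pr i, fun p => ?_⟩
    have h1 : (fun y => fderiv ℝ (fun y => S.r y i) y (Pi.single p 1)) =
        fun y => S.r y i * S.dl y (Pi.single p 1) i := by
      funext y
      exact hl.dr i y _
    rw [h1]
    exact pb_mul hTm (pr i) (pdl _ i)
  have hbe : ∀ y i, be S.m (S.r y) i i ≤ (S.c i * S.e i ^ S.δ)⁻¹ := by
    intro y i
    have h1 := (hB y).le1 i
    have h2 := hl.rlow y i
    have h3 : 0 < S.c i * S.e i ^ S.δ := by
      have := S.hc i
      have := S.he i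
      positivity
    have h4 := (hB y).nonneg i
    rw [← one_div, le_div_iff₀ h3]
    calc be S.m (S.r y) i i * (S.c i * S.e i ^ S.δ) ≤ be S.m (S.r y) i i * S.r y i :=
          mul_le_mul_of_nonneg_left h2 h4
      _ = S.r y i * be S.m (S.r y) i i := mul_comm _ _
      _ ≤ 1 := h1
  have pbe : ∀ i j, PB fun y => be S.m (S.r y) i j := by
    intro i j
    refine pb_mono (pb_const (k := k)
      (1 + (S.c i * S.e i ^ S.δ)⁻¹ * (S.c j * S.e j ^ S.δ)⁻¹)) fun y => ?_
    have h1 := (hB y).cs i j
    have h2 := hbe y i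
    have h3 := hbe y j
    have h4 := (hB y).nonneg i
    have h5 := (hB y).nonneg j
    have h6 : be S.m (S.r y) i i * be S.m (S.r y) j j ≤
        (S.c i * S.e i ^ S.δ)⁻¹ * (S.c j * S.e j ^ S.δ)⁻¹ :=
      mul_le_mul h2 h3 h5 (h4.trans h2)
    have h7 : 0 ≤ (S.c i * S.e i ^ S.δ)⁻¹ * (S.c j * S.e j ^ S.δ)⁻¹ :=
      (mul_nonneg h4 h5).trans h6
    rw [abs_of_nonneg (by linarith :
      0 ≤ 1 + (S.c i * S.e i ^ S.δ)⁻¹ * (S.c j * S.e j ^ S.δ)⁻¹)]
    have h8 : |be S.m (S.r y) i j| ^ 2 ≤
        (S.c i * S.e i ^ S.δ)⁻¹ * (S.c j * S.e j ^ S.δ)⁻¹ := by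
      rw [sq_abs]
      exact h1.trans h6
    nlinarith [sq_nonneg (|be S.m (S.r y) i j| - 1), abs_nonneg (be S.m (S.r y) i j)]
  have tbe : ∀ i j, Tame fun y => be S.m (S.r y) i j := by
    intro i j
    refine ⟨(hR.sbe i j).of_le one_le_top', pbe i j, fun p => ?_⟩
    have h1 : (fun y => fderiv ℝ (fun y => be S.m (S.r y) i j) y (Pi.single p 1)) =
        fun y => -∑ l, be S.m (S.r y) i l * be S.m (S.r y) l j *
          (S.r y l * S.dl y (Pi.single p 1) l) := by
      funext y
      exact hR.dbe i j y _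
    rw [h1]
    exact pb_neg (pb_sum hTm _ fun l => pb_mul hTm (pb_mul hTm (pbe i l) (pbe l j))
      (pb_mul hTm (pr l) (pdl _ l)))
  have tal : ∀ i j, Tame fun y => al S.m τ (S.r y) i j := by
    intro i j
    have h1 : (fun y => al S.m τ (S.r y) i j) = fun y => τ i * be S.m (S.r y) i j +
        (-1) * ∑ l, be S.m (S.r y) i l * (τ l * S.r y l) * be S.m (S.r y) l j := by
      funext y
      unfold al
      ring
    rw [h1]
    exact tadd _ _ (tmul _ _ (tconst _) (tbe i j)) (tmul _ _ (tconst _)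
      (tsum (Fin n) _ fun l => tmul _ _ (tmul _ _ (tbe i l) (tmul _ _ (tconst _) (tr l)))
        (tbe l j)))
  have taa : Tame fun y => aa S.m τ (S.r y) := by
    unfold aa
    exact tsum (Fin n) _ fun i => tmul _ _ (tmul _ _ (tconst _) (tr i)) (tbe i i)
  have tnn : ∀ i, Tame fun y => nn S.m τ (S.r y) i := by
    intro i
    unfold nn
    refine tsum (Fin n) _ fun j => tmul _ _ (tmul _ _ (tr i) (tr j)) ?_
    simp only [sq]
    exact tadd _ _ (tmul _ _ (tal i j) (tal i j)) (tmul _ _ (tal j i) (tal j i))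
  have hone : BFacts S.m (fun _ => 1) := hWa n k S.m (fun _ => 1) S.hm fun _ => one_pos
  have hbb : ∀ y i a, bb S.m (S.r y) i a =
      ∑ j, bb S.m (fun _ => 1) j a * be S.m (S.r y) j i := by
    intro y i a
    unfold be
    simp only [dotProduct, Finset.mul_sum]
    rw [Finset.sum_comm]
    have h1 : ∀ b, ∑ j, bb S.m (fun _ => 1) j a * (S.m j b * bb S.m (S.r y) i b) =
        (if a = b then 1 else 0) * bb S.m (S.r y) i b := by
      intro b
      rw [← hone.res a b, Finset.sum_mul]
      refine Finset.sum_congr rfl fun j _ => ?_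
      ring
    rw [Finset.sum_congr rfl fun b _ => h1 b]
    simp
  have pbb : ∀ i a, PB fun y => bb S.m (S.r y) i a := by
    intro i a
    have h1 : (fun y => bb S.m (S.r y) i a) =
        fun y => ∑ j, bb S.m (fun _ => 1) j a * be S.m (S.r y) j i := by
      funext y
      exact hbb y i a
    rw [h1]
    exact pb_sum hTm _ fun j => pb_mul hTm (pb_const _) (pbe j i)
  have pdet : PB fun y => (RR S.m (S.r y)).det := by
    have h1 : (fun y => (RR S.m (S.r y)).det) = fun y => ∑ σ : Equiv.Perm (Fin k),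
        ((Equiv.Perm.sign σ : ℤ) : ℝ) * ∏ a, ∑ i, S.r y i * (S.m i (σ a) * S.m i a) := by
      funext y
      rw [Matrix.det_apply']
      refine Finset.sum_congr rfl fun σ _ => ?_
      congr 1
      refine Finset.prod_congr rfl fun a _ => ?_
      unfold RR
      rw [Matrix.sum_apply]
      refine Finset.sum_congr rfl fun i _ => ?_
      rw [Matrix.smul_apply, Matrix.vecMulVec_apply, smul_eq_mul]
    rw [h1]
    exact pb_sum hTm _ fun σ => pb_mul hTm (pb_const _) (pb_prod hTm _ fun a =>
      pb_sum hTm _ fun i => pb_mul hTm (pr i) (pb_const _))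
  have pinv : ∀ a b, PB fun y => (RR S.m (S.r y))⁻¹ a b := by
    intro a b
    have h1 : (fun y => (RR S.m (S.r y))⁻¹ a b) =
        fun y => ∑ i, S.r y i * bb S.m (S.r y) i a * bb S.m (S.r y) i b := by
      funext y
      exact (hB y).inv a b
    rw [h1]
    exact pb_sum hTm _ fun i => pb_mul hTm (pb_mul hTm (pr i) (pbb i a)) (pbb i b)
  refine
    { tY := tY
      tL := tL
      tLi := tLi
      tr := tr
      tbe := tbe
      tal := tal
      taa := taa
      tnn := tnn
      pbb := pbb
      pdet := pdet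
      pA := ?_
      pD := ?_ }
  · intro p q
    unfold Sys.A
    by_cases h : p.2 = q.2
    · simp only [if_pos h]
      exact pinv p.1 q.1
    · simp only [if_neg h]
      exact pb_const 0
  · intro i c f hf
    have hfr : ∀ p : Fin k × Fin 3, PB fun y => S.fr y i c p := by
      intro p
      unfold Sys.fr
      by_cases h : p.2 = c
      · simp only [if_pos h]
        exact pbb i p.1
      · simp only [if_neg h]
        exact pb_const 0
    have cfr : ∀ p : Fin k × Fin 3, Continuous fun y => S.fr y i c p := by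
      intro p
      unfold Sys.fr
      by_cases h : p.2 = c
      · simp only [if_pos h]
        exact (hR.sbb i p.1).continuous
      · simp only [if_neg h]
        exact continuous_const
    have hD : S.D i c f = fun y => ∑ p, S.fr y i c p * fderiv ℝ f y (Pi.single p 1) := by
      funext y
      unfold Sys.D
      have h1 : S.fr y i c = ∑ p, S.fr y i c p • (Pi.single p (1 : ℝ) : Pt k) := by
        have h2 := (LinearMap.pi_apply_eq_sum_univ (LinearMap.id : Pt k →ₗ[ℝ] Pt k) (S.fr y i c))
        rw [LinearMap.id_apply] at h2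
        conv_lhs => rw [h2]
        refine Finset.sum_congr rfl fun p _ => ?_
        congr 1
        funext q
        rw [LinearMap.id_apply, Pi.single_apply]
        by_cases h : p = q
        · subst h; simp
        · rw [if_neg h, if_neg (Ne.symm h)]
      conv_lhs => rw [h1]
      rw [map_sum]
      refine Finset.sum_congr rfl fun p _ => ?_
      rw [map_smul, smul_eq_mul]
    rw [hD]
    constructor
    · exact pb_sum hTm _ fun p => pb_mul hTm (hfr p) (hf.dbd p)
    · refine continuous_finsetSum _ fun p _ => (cfr p).mul ?_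
      exact (hf.smooth.continuous_fderiv (by simp)).clm_apply continuous_const

end Pool.Agent.Lib.MP_fa837f_gt.P2.H17
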